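import Mathlib

namespace Pool.Agent.H.MP_9d0e7f_co

open SimpleGraph

structure Sp (V U : Type) where
  nd : V → U
  ps : V → ℕ
  len : U → ℕ
  inj : ∀ a b, nd a = nd b → ps a = ps b → a = b
  le : ∀ a, ps a ≤ len (nd a)
  ex : ∀ u q, q ≤ len u → ∃ a, nd a = u ∧ ps a = q
  two : ∀ u, 2 ≤ len u

variable {V U : Type}

def Sp.R (P : Sp V U) (D : U → U → Prop) (a b : V) : Prop :=
  (P.nd a = P.nd b ∧ P.ps a + 1 = P.ps b) ∨
    (P.ps a = P.len (P.nd a) ∧ P.ps b = 0 ∧ D (P.nd a) (P.nd b))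

def Sp.G (P : Sp V U) (D : U → U → Prop) : SimpleGraph V := SimpleGraph.fromRel (P.R D)

theorem Sp.adj (P : Sp V U) (D : U → U → Prop) (a b : V) :
    (P.G D).Adj a b ↔ P.R D a b ∨ P.R D b a := by
  rw [Sp.G, fromRel_adj]
  refine ⟨fun h => h.2, fun h => ⟨?_, h⟩⟩
  rintro rfl
  have := P.two (P.nd a)
  rcases h with (h | h) | (h | h) <;> omega

theorem Sp.mono (P : Sp V U) (D D' : U → U → Prop) (h : ∀ a b, D a b → D' a b) :
    P.G D ≤ P.G D' := by
  intro a b hab
  rw [Sp.adj] at hab ⊢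
  rcases hab with (h1 | h1) | (h1 | h1)
  · exact Or.inl (Or.inl h1)
  · exact Or.inl (Or.inr ⟨h1.1, h1.2.1, h _ _ h1.2.2⟩)
  · exact Or.inr (Or.inl h1)
  · exact Or.inr (Or.inr ⟨h1.1, h1.2.1, h _ _ h1.2.2⟩)

theorem ham_to_s [Finite U] (P : Sp V U) (D : U → U → Prop) (H : SimpleGraph V)
    (hle : H ≤ P.G D) (hc : H.Connected)
    (h2 : ∀ v, ∃ x y, x ≠ y ∧ ∀ z, H.Adj v z ↔ z = x ∨ z = y) :
    ∃ s : U → U, Function.Injective s ∧ (∀ u, D u (s u)) ∧
      ∀ T : Set U, (∀ u ∈ T, s u ∈ T) → ∀ u ∈ T, ∀ v, v ∈ T := by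
  have hG : ∀ a b, H.Adj a b → P.R D a b ∨ P.R D b a := fun a b h => (P.adj D a b).1 (hle h)
  have no3 : ∀ v z1 z2 z3, H.Adj v z1 → H.Adj v z2 → H.Adj v z3 →
      z1 = z2 ∨ z1 = z3 ∨ z2 = z3 := by
    intro v z1 z2 z3 a1 a2 a3
    obtain ⟨x, y, _, h⟩ := h2 v
    rcases (h _).1 a1 with rfl | rfl <;> rcases (h _).1 a2 with e2 | e2 <;>
      rcases (h _).1 a3 with e3 | e3 <;> simp [e2, e3]
  have inter : ∀ c z, 0 < P.ps c → P.ps c < P.len (P.nd c) → P.nd z = P.nd c →
      (P.ps z = P.ps c + 1 ∨ P.ps z + 1 = P.ps c) → H.Adj c z := by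
    intro c z c0 c1 hz hz'
    obtain ⟨x, y, hxy, h⟩ := h2 c
    have key : ∀ w, H.Adj c w → P.nd w = P.nd c ∧ (P.ps w = P.ps c + 1 ∨ P.ps w + 1 = P.ps c) := by
      intro w hw
      rcases hG _ _ hw with (h1 | h1) | (h1 | h1)
      · exact ⟨h1.1.symm, Or.inl h1.2.symm⟩
      · omega
      · exact ⟨h1.1, Or.inr h1.2⟩
      · omega
    have kx := key x ((h x).2 (Or.inl rfl))
    have ky := key y ((h y).2 (Or.inr rfl))
    rw [h]
    by_contra hn
    push Not at hn
    have n1 : P.ps z ≠ P.ps x := fun e => hn.1 (P.inj _ _ (hz.trans kx.1.symm) e)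
    have n2 : P.ps z ≠ P.ps y := fun e => hn.2 (P.inj _ _ (hz.trans ky.1.symm) e)
    have n3 : P.ps x ≠ P.ps y := fun e => hxy (P.inj _ _ (kx.1.trans ky.1.symm) e)
    omega
  have step : ∀ a b, P.nd a = P.nd b → P.ps a + 1 = P.ps b → H.Adj a b := by
    intro a b e1 e2
    have lb := P.le b
    have tb := P.two (P.nd b)
    by_cases h0 : 0 < P.ps a
    · exact inter a b h0 (by rw [e1]; omega) e1.symm (Or.inl e2.symm)
    · exact (inter b a (by omega) (by omega) e1 (Or.inr e2)).symm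
  have last : ∀ u, ∃ a b, P.nd a = u ∧ P.ps a = P.len u ∧ P.ps b = 0 ∧ H.Adj a b ∧
      D u (P.nd b) := by
    intro u
    obtain ⟨a, ha, ha'⟩ := P.ex u (P.len u) le_rfl
    have tu := P.two u
    obtain ⟨x, y, hxy, h⟩ := h2 a
    have key : ∀ w, H.Adj a w → (P.nd w = u ∧ P.ps w + 1 = P.len u) ∨
        (P.ps w = 0 ∧ D u (P.nd w)) := by
      intro w hw
      rcases hG _ _ hw with (h1 | h1) | (h1 | h1)
      · have := P.le w
        rw [← h1.1, ha] at this
        omega
      · exact Or.inr ⟨h1.2.1, ha ▸ h1.2.2⟩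
      · exact Or.inl ⟨h1.1.trans ha, by omega⟩
      · omega
    have ax := (h x).2 (Or.inl rfl)
    have ay := (h y).2 (Or.inr rfl)
    rcases key x ax with kx | kx
    · rcases key y ay with ky | ky
      · exact absurd (P.inj _ _ (kx.1.trans ky.1.symm) (by omega)) hxy
      · exact ⟨a, y, ha, ha', ky.1, ay, ky.2⟩
    · exact ⟨a, x, ha, ha', kx.1, ax, kx.2⟩
  choose la st l1 l2 l3 l4 l5 using last
  have sinj : Function.Injective (fun u => P.nd (st u)) := by
    intro u u' e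
    have e' : st u = st u' := P.inj _ _ e (by rw [l3, l3])
    obtain ⟨n1, hn, hn'⟩ := P.ex (P.nd (st u)) 1 (by have := P.two (P.nd (st u)); omega)
    have a3 : H.Adj (st u) n1 := step _ _ hn.symm (by rw [l3, hn'])
    have tu := P.two u
    have tu' := P.two u'
    rcases no3 (st u) (la u) (la u') n1 (l4 u).symm (by rw [e']; exact (l4 u').symm) a3 with h | h | h
    · rw [← l1 u, h, l1 u']
    · have := l2 u
      rw [h] at this
      omega
    · have := l2 u'
      rw [h] at this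
      omega
  have cross : ∀ a b, H.Adj a b → P.ps a = P.len (P.nd a) → P.ps b = 0 →
      P.nd b = P.nd (st (P.nd a)) := by
    intro a b hab e1 e2
    have ea : a = la (P.nd a) := P.inj _ _ (l1 _).symm (by rw [l2, e1])
    have ta := P.two (P.nd a)
    obtain ⟨pr, hp, hp'⟩ := P.ex (P.nd a) (P.len (P.nd a) - 1) (by omega)
    have a3 : H.Adj a pr := (step pr a hp (by omega)).symm
    have a2 : H.Adj a (st (P.nd a)) := by
      have := l4 (P.nd a)
      rwa [← ea] at this
    rcases no3 a b (st (P.nd a)) pr hab a2 a3 with h | h | h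
    · rw [← h]
    · rw [h] at e2
      omega
    · have := l3 (P.nd a)
      rw [h] at this
      omega
  refine ⟨fun u => P.nd (st u), sinj, l5, fun T hT u hu v => ?_⟩
  have back : ∀ x, P.nd (st x) ∈ T → x ∈ T := by
    intro x hx
    have hi : Function.Injective (fun y : T => (⟨P.nd (st y.1), hT y.1 y.2⟩ : T)) := by
      intro y y' e
      exact Subtype.ext (sinj (congrArg Subtype.val e))
    obtain ⟨y, hy⟩ := Finite.injective_iff_surjective.1 hi ⟨_, hx⟩
    have : y.1 = x := sinj (congrArg Subtype.val hy)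
    exact this ▸ y.2
  obtain ⟨a, ha, -⟩ := P.ex u 0 (Nat.zero_le _)
  obtain ⟨b, hb, -⟩ := P.ex v 0 (Nat.zero_le _)
  have hr := (reachable_iff_reflTransGen a b).1 (hc.preconnected a b)
  rw [← hb]
  clear hb
  induction hr with
  | refl => rw [ha]; exact hu
  | @tail c d _ hcd ih =>
    rcases hG _ _ hcd with (h1 | h1) | (h1 | h1)
    · rw [← h1.1]; exact ih
    · rw [cross c d hcd h1.1 h1.2.1]; exact hT _ ih
    · rw [h1.1]; exact ih
    · apply back
      rw [← cross d c hcd.symm h1.1 h1.2.1]; exact ih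

theorem s_to_ham [Finite U] (P : Sp V U) (s : U → U) (hs : Function.Surjective s) (u0 : U)
    (hr : ∀ u, Relation.ReflTransGen (fun a b => s a = b) u0 u) :
    (P.G (fun a b => s a = b)).Connected ∧
      ∀ v, ∃ x y, x ≠ y ∧ ∀ z, (P.G (fun a b => s a = b)).Adj v z ↔ z = x ∨ z = y := by
  have hi : Function.Injective s := Finite.injective_iff_surjective.2 hs
  constructor
  · have r1 : ∀ q a b, P.nd a = P.nd b → P.ps a = 0 → P.ps b = q →
        (P.G (fun a b => s a = b)).Reachable a b := by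
      intro q
      induction q with
      | zero =>
        intro a b e1 e2 e3
        rw [P.inj a b e1 (by omega)]
      | succ q ih =>
        intro a b e1 e2 e3
        have lb := P.le b
        obtain ⟨c, hc, hc'⟩ := P.ex (P.nd b) q (by omega)
        refine (ih a c (e1.trans hc.symm) e2 hc').trans (Adj.reachable ?_)
        rw [Sp.adj]
        exact Or.inl (Or.inl ⟨hc, by omega⟩)
    have r2 : ∀ a b, P.nd a = P.nd b → (P.G (fun a b => s a = b)).Reachable a b := by
      intro a b e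
      obtain ⟨c, hc, hc'⟩ := P.ex (P.nd a) 0 (Nat.zero_le _)
      exact (r1 _ c a hc hc' rfl).symm.trans (r1 _ c b (hc.trans e) hc' rfl)
    obtain ⟨a0, ha0, -⟩ := P.ex u0 0 (Nat.zero_le _)
    have r3 : ∀ u, Relation.ReflTransGen (fun a b => s a = b) u0 u → ∀ b, P.nd b = u →
        (P.G (fun a b => s a = b)).Reachable a0 b := by
      intro u hu
      induction hu with
      | refl => intro b hb; exact r2 _ _ (ha0.trans hb.symm)
      | @tail c d _ hcd ih =>
        intro b hb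
        obtain ⟨x, hx, hx'⟩ := P.ex c (P.len c) le_rfl
        obtain ⟨y, hy, hy'⟩ := P.ex d 0 (Nat.zero_le _)
        refine ((ih x hx).trans (Adj.reachable ?_)).trans (r2 y b (hy.trans hb.symm))
        rw [Sp.adj]
        exact Or.inl (Or.inr ⟨by rw [hx, hx'], hy', by rw [hx, hy]; exact hcd⟩)
    haveI : Nonempty V := ⟨a0⟩
    exact ⟨fun a b => (r3 _ (hr _) a rfl).symm.trans (r3 _ (hr _) b rfl)⟩
  · intro v
    have tv := P.two (P.nd v)
    have lv := P.le v
    have nx : ∃ x, (∀ z, P.R (fun a b => s a = b) v z ↔ z = x) ∧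
        ((P.ps v < P.len (P.nd v) ∧ P.ps x = P.ps v + 1) ∨
          (P.ps v = P.len (P.nd v) ∧ P.ps x = 0)) := by
      by_cases h : P.ps v < P.len (P.nd v)
      · obtain ⟨x, hx, hx'⟩ := P.ex (P.nd v) (P.ps v + 1) h
        refine ⟨x, fun z => ⟨?_, ?_⟩, Or.inl ⟨h, hx'⟩⟩
        · rintro (h1 | h1)
          · exact P.inj _ _ (h1.1.symm.trans hx.symm) (by omega)
          · omega
        · rintro rfl
          exact Or.inl ⟨hx.symm, hx'.symm⟩
      · obtain ⟨x, hx, hx'⟩ := P.ex (s (P.nd v)) 0 (Nat.zero_le _)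
        refine ⟨x, fun z => ⟨?_, ?_⟩, Or.inr ⟨by omega, hx'⟩⟩
        · rintro (h1 | h1)
          · have := P.le z
            rw [← h1.1] at this
            omega
          · exact P.inj _ _ (h1.2.2.symm.trans hx.symm) (by omega)
        · rintro rfl
          exact Or.inr ⟨by omega, hx', hx.symm⟩
    have pv : ∃ y, (∀ z, P.R (fun a b => s a = b) z v ↔ z = y) ∧
        ((0 < P.ps v ∧ P.ps y + 1 = P.ps v) ∨ (P.ps v = 0 ∧ 2 ≤ P.ps y)) := by
      by_cases h : 0 < P.ps v
      · obtain ⟨x, hx, hx'⟩ := P.ex (P.nd v) (P.ps v - 1) (by omega)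
        refine ⟨x, fun z => ⟨?_, ?_⟩, Or.inl ⟨h, by omega⟩⟩
        · rintro (h1 | h1)
          · exact P.inj _ _ (h1.1.trans hx.symm) (by omega)
          · omega
        · rintro rfl
          exact Or.inl ⟨hx, by omega⟩
      · obtain ⟨u, hu⟩ := hs (P.nd v)
        obtain ⟨x, hx, hx'⟩ := P.ex u (P.len u) le_rfl
        have tu := P.two u
        refine ⟨x, fun z => ⟨?_, ?_⟩, Or.inr ⟨by omega, by omega⟩⟩
        · rintro (h1 | h1)
          · omega
          · have e : P.nd z = u := hi (h1.2.2.trans hu.symm)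
            exact P.inj _ _ (e.trans hx.symm) (by rw [h1.1, e, hx'])
        · rintro rfl
          exact Or.inr ⟨by rw [hx, hx'], by omega, by rw [hx]; exact hu⟩
    obtain ⟨x, hx, hx'⟩ := nx
    obtain ⟨y, hy, hy'⟩ := pv
    refine ⟨x, y, ?_, fun z => ?_⟩
    · rintro rfl
      omega
    · rw [Sp.adj, hx, hy]

end Pool.Agent.H.MP_9d0e7f_co
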