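import Mathlib

namespace Pool.Agent.H.MP_9d0e7f_co

open Equiv

abbrev A (k : ℕ) : Type := alternatingGroup (Fin (k + 1))
abbrev B (k : ℕ) : Type := A k × Fin (k + 1) × Fin 3
abbrev U (k : ℕ) : Type := Fin (k + 1) ⊕ B k

def D {k : ℕ} (π : Perm (Fin (k + 1))) : U k → U k → Prop
  | Sum.inl _, Sum.inl _ => False
  | Sum.inl a, Sum.inr b => b.2.2 = 0 ∧ b.1.1 b.2.1 = π a
  | Sum.inr b, Sum.inl a => (b.2.2 = 2 ∧ b.2.1.val + 1 = a.val) ∨
      (b.2.2 = 0 ∧ b.2.1.val = k ∧ a.val = 0)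
  | Sum.inr b, Sum.inr c =>
      (b.1 = c.1 ∧ b.2.1 = c.2.1 ∧ ((b.2.2 = 1 ∧ c.2.2 ≠ 1) ∨ (b.2.2 ≠ 1 ∧ c.2.2 = 1))) ∨
      (b.1 = c.1 ∧ b.2.1.val + 1 = c.2.1.val ∧ b.2.2 = 0 ∧ c.2.2 = 2) ∨
      (b.2.1.val = k ∧ c.2.1.val = 0 ∧ b.2.2 ≠ 1 ∧ c.2.2 = 2)

variable {k : ℕ}

def g (σ : A k) (j : Fin (k + 1)) (e : Fin 3) : U k := Sum.inr (σ, j, e)

theorem g_inj {σ σ' : A k} {j j' : Fin (k + 1)} {e e' : Fin 3} :
    g σ j e = g σ' j' e' ↔ σ = σ' ∧ j = j' ∧ e = e' := by
  simp [g]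

theorem f3 (e : Fin 3) (h : e ≠ 1) : e = 0 ∨ e = 2 := by revert e; decide

theorem out_w (π : Perm (Fin (k + 1))) (σ : A k) (j : Fin (k + 1)) (y : U k)
    (h : D π (g σ j 1) y) : y = g σ j 0 ∨ y = g σ j 2 := by
  rcases y with a | ⟨τ, i, e⟩
  · simp [g, D] at h
  · simp only [g, D] at h
    rcases h with ⟨rfl, rfl, h | h⟩ | h | h
    · rcases f3 e h.2 with rfl | rfl
      · exact Or.inl rfl
      · exact Or.inr rfl
    · exact absurd rfl h.1
    · simp at h
    · simp at h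

theorem in_w (π : Perm (Fin (k + 1))) (σ : A k) (j : Fin (k + 1)) (y : U k)
    (h : D π y (g σ j 1)) : y = g σ j 0 ∨ y = g σ j 2 := by
  rcases y with a | ⟨τ, i, e⟩
  · simp [g, D] at h
  · simp only [g, D] at h
    rcases h with ⟨rfl, rfl, h | h⟩ | h | h
    · exact absurd rfl h.2
    · rcases f3 e h.1 with rfl | rfl
      · exact Or.inl rfl
      · exact Or.inr rfl
    · simp at h
    · simp at h

theorem in_v (π : Perm (Fin (k + 1))) (σ : A k) (j j' : Fin (k + 1)) (hj : j.val + 1 = j'.val)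
    (y : U k) (h : D π y (g σ j' 2)) : y = g σ j' 1 ∨ y = g σ j 0 := by
  rcases y with a | ⟨τ, i, e⟩
  · simp [g, D] at h
  · simp only [g, D] at h
    rcases h with ⟨rfl, rfl, h | h⟩ | h | h
    · left; rw [h.1]; rfl
    · simp at h
    · obtain ⟨rfl, h1, rfl, -⟩ := h
      right
      have : i = j := Fin.ext (by omega)
      rw [this]; rfl
    · omega

theorem out_u (π : Perm (Fin (k + 1))) (σ : A k) (j j' : Fin (k + 1)) (hj : j.val + 1 = j'.val)
    (y : U k) (h : D π (g σ j 0) y) : y = g σ j 1 ∨ y = g σ j' 2 := by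
  have := j'.isLt
  rcases y with a | ⟨τ, i, e⟩
  · simp only [g, D] at h
    rcases h with h | h
    · simp at h
    · omega
  · simp only [g, D] at h
    rcases h with ⟨rfl, rfl, h | h⟩ | h | h
    · simp at h
    · left; rw [h.2]; rfl
    · obtain ⟨rfl, h1, -, rfl⟩ := h
      right
      have : i = j' := Fin.ext (by omega)
      rw [this]; rfl
    · omega

theorem in_u (π : Perm (Fin (k + 1))) (σ : A k) (j : Fin (k + 1))
    (y : U k) (h : D π y (g σ j 0)) : y = g σ j 1 ∨ ∃ a, y = Sum.inl a ∧ σ.1 j = π a := by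
  rcases y with a | ⟨τ, i, e⟩
  · simp only [g, D] at h
    exact Or.inr ⟨a, rfl, h.2⟩
  · simp only [g, D] at h
    rcases h with ⟨rfl, rfl, h | h⟩ | h | h
    · left; rw [h.1]; rfl
    · simp at h
    · simp at h
    · simp at h

theorem out_v (π : Perm (Fin (k + 1))) (σ : A k) (j j' : Fin (k + 1)) (hj : j.val + 1 = j'.val)
    (y : U k) (h : D π (g σ j 2) y) : y = g σ j 1 ∨ y = Sum.inl j' := by
  have := j'.isLt
  rcases y with a | ⟨τ, i, e⟩
  · simp only [g, D] at h
    rcases h with h | h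
    · right
      have : a = j' := Fin.ext (by omega)
      rw [this]
    · simp at h
  · simp only [g, D] at h
    rcases h with ⟨rfl, rfl, h | h⟩ | h | h
    · simp at h
    · left; rw [h.2]; rfl
    · simp at h
    · omega

theorem out_x (π : Perm (Fin (k + 1))) (a : Fin (k + 1))
    (y : U k) (h : D π (Sum.inl a) y) : ∃ σ j, y = g σ j 0 := by
  rcases y with b | ⟨τ, i, e⟩
  · simp [D] at h
  · simp only [D] at h
    exact ⟨τ, i, by rw [h.1]; rfl⟩

theorem no_s (hk : 1 ≤ k) (π : Perm (Fin (k + 1))) (hπ : Perm.sign π = -1) (s : U k → U k)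
    (hi : Function.Injective s) (hD : ∀ u, D π u (s u))
    (hT : ∀ T : Set (U k), (∀ u ∈ T, s u ∈ T) → ∀ u ∈ T, ∀ v, v ∈ T) : False := by
  have hs : Function.Surjective s := Finite.injective_iff_surjective.1 hi
  have pre : ∀ y, ∃ x, s x = y ∧ D π x y := by
    intro y
    obtain ⟨x, hx⟩ := hs y
    exact ⟨x, hx, hx ▸ hD x⟩
  have mode : ∀ σ j, (s (g σ j 0) = g σ j 1 ∧ s (g σ j 1) = g σ j 2) ∨
      (s (g σ j 2) = g σ j 1 ∧ s (g σ j 1) = g σ j 0) := by
    intro σ j
    obtain ⟨x, hx, hx'⟩ := pre (g σ j 1)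
    rcases in_w π σ j x hx' with rfl | rfl <;> rcases out_w π σ j _ (hD _) with h | h
    · exfalso
      have := hT {g σ j 0, g σ j 1} (by
        rintro u (rfl | rfl)
        · exact Or.inr hx
        · exact Or.inl h) (g σ j 0) (Or.inl rfl) (g σ j 2)
      simp [g_inj] at this
    · exact Or.inl ⟨hx, h⟩
    · exact Or.inr ⟨hx, h⟩
    · exfalso
      have := hT {g σ j 2, g σ j 1} (by
        rintro u (rfl | rfl)
        · exact Or.inr hx
        · exact Or.inl h) (g σ j 2) (Or.inl rfl) (g σ j 0)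
      simp [g_inj] at this
  have rt : ∀ σ j, s (g σ j 0) = g σ j 1 → s (g σ j 1) = g σ j 2 := by
    intro σ j h
    rcases mode σ j with m | m
    · exact m.2
    · have := hi (h.trans m.1.symm)
      simp [g_inj] at this
  have up : ∀ σ (j j' : Fin (k + 1)), j.val + 1 = j'.val → s (g σ j 0) = g σ j 1 →
      s (g σ j' 0) = g σ j' 1 := by
    intro σ j j' hj h
    rcases mode σ j' with m | m
    · exact m.1
    · exfalso
      obtain ⟨x, hx, hx'⟩ := pre (g σ j' 2)
      rcases in_v π σ j j' hj x hx' with rfl | rfl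
      · have := hx.symm.trans m.2
        simp [g_inj] at this
      · have := hx.symm.trans h
        simp [g_inj] at this
  have down : ∀ σ (j j' : Fin (k + 1)), j.val + 1 = j'.val → s (g σ j' 0) = g σ j' 1 →
      s (g σ j 0) = g σ j 1 := by
    intro σ j j' hj h
    rcases out_u π σ j j' hj _ (hD _) with m | m
    · exact m
    · have := hi (m.trans (rt σ j' h).symm)
      simp [g_inj] at this
  have to0 : ∀ σ n (j : Fin (k + 1)), j.val = n →
      (s (g σ j 0) = g σ j 1 ↔ s (g σ 0 0) = g σ 0 1) := by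
    intro σ n
    induction n with
    | zero =>
      intro j hj
      have : j = 0 := Fin.ext hj
      rw [this]
    | succ n ih =>
      intro j hj
      have hl := j.isLt
      rw [← ih ⟨n, by omega⟩ rfl]
      exact ⟨down σ _ j (by simp [hj]), up σ _ j (by simp [hj])⟩
  obtain ⟨σ, j0, h0⟩ := out_x π 0 _ (hD _)
  have r0 : s (g σ j0 0) = g σ j0 1 := by
    rcases mode σ j0 with m | m
    · exact m.1
    · have := hi (h0.trans m.2.symm)
      simp [g] at this
  have all : ∀ j, s (g σ j 0) = g σ j 1 := fun j =>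
    (to0 σ _ j rfl).2 ((to0 σ _ j0 rfl).1 r0)
  have sx : ∀ a, s (Sum.inl a) = g σ (σ.1⁻¹ (π a)) 0 := by
    intro a
    obtain ⟨x, hx, hx'⟩ := pre (g σ (σ.1⁻¹ (π a)) 0)
    rcases in_u π σ _ x hx' with rfl | ⟨b, rfl, hb⟩
    · have := hx.symm.trans (rt σ _ (all _))
      simp [g_inj] at this
    · have : a = b := by simpa using hb
      rw [← this] at hx
      exact hx
  have sv : ∀ j j' : Fin (k + 1), j.val + 1 = j'.val → s (g σ j 2) = Sum.inl j' := by
    intro j j' hj
    rcases out_v π σ j j' hj _ (hD _) with m | m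
    · have := hi (m.trans (all j).symm)
      simp [g_inj] at this
    · exact m
  obtain ⟨f, hf⟩ : ∃ f : Perm (Fin (k + 1)), f = finRotate (k + 1) * σ.1⁻¹ * π := ⟨_, rfl⟩
  have fa : ∀ a, f a = finRotate (k + 1) (σ.1⁻¹ (π a)) := by
    intro a; rw [hf]; rfl
  have sc : ∀ a, f.SameCycle 0 a := by
    intro a
    by_contra ha
    have := hT {y | ∃ b, ¬ f.SameCycle 0 b ∧ (y = Sum.inl b ∨ ∃ e, y = g σ (σ.1⁻¹ (π b)) e)}
      (by
        rintro y ⟨b, hb, rfl | ⟨e, rfl⟩⟩
        · exact ⟨b, hb, Or.inr ⟨0, sx b⟩⟩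
        · by_cases e1 : e = 1
          · subst e1
            exact ⟨b, hb, Or.inr ⟨2, rt σ _ (all _)⟩⟩
          · rcases f3 e e1 with rfl | rfl
            · exact ⟨b, hb, Or.inr ⟨1, all _⟩⟩
            · have hb' : ¬ f.SameCycle 0 (f b) := by rwa [Perm.sameCycle_apply_right]
              refine ⟨f b, hb', Or.inl (sv _ _ ?_)⟩
              have hne : σ.1⁻¹ (π b) ≠ Fin.last k := by
                intro e
                apply hb'
                rw [fa, e, finRotate_last]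
              rw [fa, coe_finRotate_of_ne_last hne])
      (Sum.inl a) ⟨a, ha, Or.inl rfl⟩ (Sum.inl 0)
    obtain ⟨b, hb, h | ⟨e, h⟩⟩ := this
    · have : b = 0 := (Sum.inl_injective h).symm
      exact hb (this ▸ Perm.SameCycle.refl f _)
    · simp [g] at h
  have f0 : f 0 ≠ 0 := by
    intro h
    have := (sc ⟨1, by omega⟩).eq_of_left h
    simp [Fin.ext_iff] at this
  have cyc : f.IsCycle := ⟨0, f0, fun y _ => sc y⟩
  have sup : f.support = Finset.univ := by
    ext a
    simp only [Perm.mem_support, Finset.mem_univ, iff_true]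
    intro h
    exact f0 ((sc a).apply_eq_self_iff.2 h)
  have s1 := cyc.sign
  rw [sup, Finset.card_univ, Fintype.card_fin, hf, Perm.sign_mul, Perm.sign_mul, Perm.sign_inv,
    sign_finRotate, hπ, Perm.mem_alternatingGroup.1 σ.2, pow_succ] at s1
  rcases Int.units_eq_one_or ((-1) ^ k : ℤˣ) with h | h <;> simp [h] at s1

end Pool.Agent.H.MP_9d0e7f_co
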