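import Mathlib
import Pool.Agent.H.MP_9d0e7f_co.Dig

namespace Pool.Agent.H.MP_9d0e7f_co

open Equiv

variable {k : ℕ}

theorem enum (hk : 2 ≤ k) : ∃ (m : ℕ) (el : ℕ → A k) (idx : A k → ℕ), 1 ≤ m ∧ el 0 = 1 ∧
    (∀ σ, idx σ ≤ m ∧ el (idx σ) = σ) ∧ ∀ i ≤ m, idx (el i) = i := by
  classical
  have hn : Nontrivial (A k) :=
    alternatingGroup.nontrivial_of_three_le_card (by simp; omega)
  have h2 : 1 < Fintype.card (A k) := Fintype.one_lt_card
  obtain ⟨m, hm⟩ : ∃ m, Fintype.card (A k) = m + 1 := ⟨Fintype.card (A k) - 1, by omega⟩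
  obtain ⟨e0⟩ : Nonempty (A k ≃ Fin (m + 1)) := ⟨Fintype.equivFinOfCardEq hm⟩
  obtain ⟨e, he⟩ : ∃ e : A k ≃ Fin (m + 1), e 1 = 0 :=
    ⟨e0.trans (Equiv.swap (e0 1) 0), by simp⟩
  refine ⟨m, fun i => if h : i < m + 1 then e.symm ⟨i, h⟩ else 1, fun σ => (e σ).val, by omega, ?_,
    fun σ => ⟨Nat.lt_succ_iff.1 (e σ).isLt, ?_⟩, fun i hi => ?_⟩
  · simp only [Nat.zero_lt_succ, dif_pos]
    rw [Equiv.symm_apply_eq, he]; rfl
  · simp only [(e σ).isLt, dif_pos]
    simp
  · have : i < m + 1 := by omega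
    simp only [this, dif_pos]
    simp

open Classical in
noncomputable def sf (m : ℕ) (el : ℕ → A k) (idx : A k → ℕ) : U k → U k
  | Sum.inl a => g 1 a 0
  | Sum.inr b =>
    if b.1 = 1 then
      (if b.2.2 = 0 then g b.1 b.2.1 1 else if b.2.2 = 1 then g b.1 b.2.1 2
        else if h : b.2.1.val < k then Sum.inl ⟨b.2.1.val + 1, by omega⟩ else g (el 1) 0 2)
    else
      (if b.2.2 = 2 then g b.1 b.2.1 1 else if b.2.2 = 1 then g b.1 b.2.1 0
        else if h : b.2.1.val < k then g b.1 ⟨b.2.1.val + 1, by omega⟩ 2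
        else if idx b.1 < m then g (el (idx b.1 + 1)) 0 2 else Sum.inl 0)

theorem yes_s (hk : 2 ≤ k) : ∃ s : U k → U k, (∀ u, D 1 u (s u)) ∧ Function.Surjective s ∧
    ∀ u, Relation.ReflTransGen (fun a b => s a = b) (Sum.inl 0) u := by
  obtain ⟨m, el, idx, hm, el0, hi, hi'⟩ := enum hk
  obtain ⟨s, hs⟩ : ∃ s : U k → U k, s = sf m el idx := ⟨_, rfl⟩
  have sx : ∀ a, s (Sum.inl a) = g 1 a 0 := fun a => by rw [hs]; rfl
  have s10 : ∀ j, s (g 1 j 0) = g 1 j 1 := fun j => by simp [hs, sf, g]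
  have s11 : ∀ j, s (g 1 j 1) = g 1 j 2 := fun j => by simp [hs, sf, g]
  have s12 : ∀ (j : Fin (k + 1)) (h : j.val < k), s (g 1 j 2) = Sum.inl ⟨j.val + 1, by omega⟩ :=
    fun j h => by simp [hs, sf, g, h]
  have s12' : ∀ (j : Fin (k + 1)), ¬ j.val < k → s (g 1 j 2) = g (el 1) 0 2 :=
    fun j h => by simp [hs, sf, g, h]
  have t2 : ∀ σ j, σ ≠ 1 → s (g σ j 2) = g σ j 1 := fun σ j h => by simp [hs, sf, g, h]
  have t1 : ∀ σ j, σ ≠ 1 → s (g σ j 1) = g σ j 0 := fun σ j h => by simp [hs, sf, g, h]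
  have t0 : ∀ σ (j : Fin (k + 1)) (h : j.val < k), σ ≠ 1 →
      s (g σ j 0) = g σ ⟨j.val + 1, by omega⟩ 2 := fun σ j h h' => by simp [hs, sf, g, h, h']
  have t0' : ∀ σ (j : Fin (k + 1)), ¬ j.val < k → σ ≠ 1 → idx σ < m →
      s (g σ j 0) = g (el (idx σ + 1)) 0 2 := fun σ j h h' h'' => by simp [hs, sf, g, h, h', h'']
  have t0'' : ∀ σ (j : Fin (k + 1)), ¬ j.val < k → σ ≠ 1 → ¬ idx σ < m →
      s (g σ j 0) = Sum.inl 0 := fun σ j h h' h'' => by simp [hs, sf, g, h, h', h'']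
  have f3' : ∀ e : Fin 3, e = 0 ∨ e = 1 ∨ e = 2 := by decide
  have ne1 : ∀ i, 1 ≤ i → i ≤ m → el i ≠ 1 := by
    intro i h1 h2 h
    have a1 := hi' i h2
    have a2 := hi' 0 (Nat.zero_le _)
    rw [h] at a1
    rw [el0] at a2
    omega
  obtain ⟨R, hR⟩ : ∃ R : U k → Prop,
      ∀ u, R u ↔ Relation.ReflTransGen (fun a b => s a = b) (Sum.inl 0) u :=
    ⟨_, fun _ => Iff.rfl⟩
  have R0 : R (Sum.inl 0) := (hR _).2 Relation.ReflTransGen.refl
  have Rs : ∀ u v, s u = v → R u → R v := fun u v h hu => (hR _).2 (((hR _).1 hu).tail h)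
  have Rx : ∀ n (a : Fin (k + 1)), a.val = n → R (Sum.inl a) := by
    intro n
    induction n with
    | zero =>
      intro a ha
      have : a = 0 := Fin.ext ha
      rw [this]; exact R0
    | succ n ih =>
      intro a ha
      have hl := a.isLt
      have h1 := ih ⟨n, by omega⟩ rfl
      have h2 := Rs _ _ (s12 _ (by simp; omega)) (Rs _ _ (s11 _) (Rs _ _ (s10 _) (Rs _ _ (sx _) h1)))
      have : a = ⟨n + 1, by omega⟩ := Fin.ext ha
      rw [this]; exact h2
  have R1 : ∀ j e, R (g 1 j e) := by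
    intro j e
    have h0 := Rs _ _ (sx _) (Rx _ j rfl)
    rcases f3' e with rfl | rfl | rfl
    · exact h0
    · exact Rs _ _ (s10 _) h0
    · exact Rs _ _ (s11 _) (Rs _ _ (s10 _) h0)
  have Rin : ∀ σ, σ ≠ 1 → R (g σ 0 2) → ∀ j e, R (g σ j e) := by
    intro σ hσ h0
    have hv : ∀ n (j : Fin (k + 1)), j.val = n → R (g σ j 2) := by
      intro n
      induction n with
      | zero =>
        intro a ha
        have : a = 0 := Fin.ext ha
        rw [this]; exact h0
      | succ n ih =>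
        intro a ha
        have hl := a.isLt
        have h1 := ih ⟨n, by omega⟩ rfl
        have h2 := Rs _ _ (t0 σ _ (by simp; omega) hσ) (Rs _ _ (t1 σ _ hσ) (Rs _ _ (t2 σ _ hσ) h1))
        have : a = ⟨n + 1, by omega⟩ := Fin.ext ha
        rw [this]; exact h2
    intro j e
    have h2 := hv _ j rfl
    rcases f3' e with rfl | rfl | rfl
    · exact Rs _ _ (t1 σ _ hσ) (Rs _ _ (t2 σ _ hσ) h2)
    · exact Rs _ _ (t2 σ _ hσ) h2
    · exact h2
  have Rel : ∀ i, i + 1 ≤ m → R (g (el (i + 1)) 0 2) := by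
    intro i
    induction i with
    | zero => intro _; exact Rs _ _ (s12' (Fin.last k) (by simp)) (R1 _ _)
    | succ i ih =>
      intro h
      have n1 := ne1 (i + 1) (by omega) (by omega)
      have h1 := Rin _ n1 (ih (by omega)) (Fin.last k) 0
      have e := hi' (i + 1) (by omega)
      have h2 := Rs _ _ (t0' _ (Fin.last k) (by simp) n1 (by omega)) h1
      rwa [e] at h2
  have Rall : ∀ u, R u := by
    rintro (a | ⟨σ, j, e⟩)
    · exact Rx _ a rfl
    · by_cases hσ : σ = 1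
      · subst hσ; exact R1 j e
      · have h1 := hi σ
        have h2 : idx σ ≠ 0 := by
          intro h
          rw [h, el0] at h1
          exact hσ h1.2.symm
        have h3 := Rel (idx σ - 1) (by omega)
        rw [show idx σ - 1 + 1 = idx σ by omega, h1.2] at h3
        exact Rin σ hσ h3 j e
  refine ⟨s, ?_, ?_, fun u => (hR u).1 (Rall u)⟩
  · rintro (a | ⟨σ, j, e⟩)
    · rw [sx]; simp [D, g]
    · have hl := j.isLt
      change D 1 (g σ j e) (s (g σ j e))
      by_cases hσ : σ = 1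
      · subst hσ
        rcases f3' e with rfl | rfl | rfl
        · rw [s10]; simp [D, g]
        · rw [s11]; simp [D, g]
        · by_cases h : j.val < k
          · rw [s12 j h]; simp [D, g]
          · rw [s12' j h]; simp [D, g]; omega
      · rcases f3' e with rfl | rfl | rfl
        · by_cases h : j.val < k
          · rw [t0 σ j h hσ]; simp [D, g]
          · by_cases h' : idx σ < m
            · rw [t0' σ j h hσ h']; simp [D, g]; omega
            · rw [t0'' σ j h hσ h']; simp [D, g]; omega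
        · rw [t1 σ j hσ]; simp [D, g]
        · rw [t2 σ j hσ]; simp [D, g]
  · intro y
    rcases ((hR y).1 (Rall y)).cases_tail with rfl | ⟨x, _, hx⟩
    · exact ⟨_, t0'' (el m) (Fin.last k) (by simp) (ne1 m hm le_rfl) (by rw [hi' m le_rfl]; omega)⟩
    · exact ⟨x, hx⟩

end Pool.Agent.H.MP_9d0e7f_co
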