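import Mathlib
import Pool.Agent.H.MP_9d0e7f_co.Split
import Pool.Agent.H.MP_9d0e7f_co.Yes
import Pool.Agent.H.MP_4617fc_co.Cyc

namespace Pool.Agent.H.MP_9d0e7f_co

open Equiv Finset

abbrev W (k M : ℕ) : Type := (Fin (k + 1) × Fin (M + 3)) ⊕ (B k × Fin 3)

def P (k M : ℕ) : Sp (W k M) (U k) where
  nd := Sum.map (fun p => p.1) (fun p => p.1)
  ps := Sum.elim (fun p => p.2.val) (fun p => p.2.val)
  len := Sum.elim (fun _ => M + 2) (fun _ => 2)
  inj := by
    rintro (⟨a, q⟩ | ⟨a, q⟩) (⟨b, r⟩ | ⟨b, r⟩) h1 h2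
    · simp only [Sum.map_inl, Sum.inl.injEq, Sum.elim_inl] at h1 h2
      rw [h1, Fin.ext h2]
    · simp at h1
    · simp at h1
    · simp only [Sum.map_inr, Sum.inr.injEq, Sum.elim_inr] at h1 h2
      rw [h1, Fin.ext h2]
  le := by
    rintro (⟨a, q⟩ | ⟨a, q⟩)
    · exact Nat.lt_succ_iff.1 q.isLt
    · exact Nat.lt_succ_iff.1 q.isLt
  ex := by
    rintro (a | a) q hq
    · exact ⟨Sum.inl (a, ⟨q, Nat.lt_succ_iff.2 hq⟩), rfl, rfl⟩
    · exact ⟨Sum.inr (a, ⟨q, Nat.lt_succ_iff.2 hq⟩), rfl, rfl⟩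
  two := by
    rintro (a | a)
    · exact Nat.le_add_left 2 M
    · exact le_rfl

variable {k M : ℕ}

def sw (p : Fin (M + 3)) (a b : Fin (k + 1)) (q : Fin (M + 3)) : Perm (Fin (k + 1)) :=
  if p ≤ q then swap a b else 1

def Phi (p : Fin (M + 3)) (a b : Fin (k + 1)) (α : A k) : W k M ≃ W k M :=
  Equiv.sumCongr (Equiv.prodCongrLeft (sw p a b))
    (Equiv.prodCongr (Equiv.prodCongr (Equiv.mulLeft α) (Equiv.refl _)) (Equiv.refl _))

theorem Phi_inl (p : Fin (M + 3)) (a b : Fin (k + 1)) (α : A k) (z : Fin (k + 1))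
    (q : Fin (M + 3)) : Phi p a b α (Sum.inl (z, q)) = Sum.inl (sw p a b q z, q) := rfl

theorem Phi_inr (p : Fin (M + 3)) (a b : Fin (k + 1)) (α σ : A k) (j : Fin (k + 1))
    (e c : Fin 3) : Phi p a b α (Sum.inr ((σ, j, e), c)) = Sum.inr ((α * σ, j, e), c) := rfl

theorem rel_iff (p : Fin (M + 3)) (a b : Fin (k + 1)) (α : A k) (ρ : Perm (Fin (k + 1)))
    (hα : α.1 = swap a b * ρ⁻¹) (x y : W k M)
    (hy : ∀ z, y = Sum.inl (z, p) → z ≠ a ∧ z ≠ b) :
    (P k M).R (D ρ) x y ↔ (P k M).R (D 1) (Phi p a b α x) (Phi p a b α y) := by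
  rcases x with ⟨z, q⟩ | ⟨⟨σ, j, e⟩, c⟩ <;> rcases y with ⟨z', q'⟩ | ⟨⟨σ', j', e'⟩, c'⟩
  · simp only [Phi_inl, Sp.R, P, Sum.map_inl, Sum.elim_inl, D, and_false, or_false,
      Sum.inl.injEq]
    refine and_congr_left (fun h => ?_)
    by_cases h1 : p ≤ q
    · have h2 : p ≤ q' := by rw [Fin.le_def] at *; omega
      simp [sw, h1, h2]
    · by_cases h2 : p ≤ q'
      · have h3 : q' = p := by rw [Fin.le_def] at *; exact Fin.ext (by omega)
        subst h3
        have := hy z' rfl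
        simp [sw, h1, swap_apply_of_ne_of_ne this.1 this.2]
      · simp [sw, h1, h2]
  · simp only [Phi_inl, Phi_inr, Sp.R, P, Sum.map_inl, Sum.map_inr, Sum.elim_inl, Sum.elim_inr, D,
      reduceCtorEq, false_and, false_or]
    refine and_congr_right (fun h => and_congr_right (fun _ => and_congr_right (fun _ => ?_)))
    have h1 : p ≤ q := by
      have := p.isLt
      rw [Fin.le_def]; omega
    simp only [sw, h1, if_true, Subgroup.coe_mul, hα, Perm.mul_apply, Perm.one_apply,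
      EmbeddingLike.apply_eq_iff_eq]
    rw [Perm.inv_eq_iff_eq]
  · simp only [Phi_inl, Phi_inr, Sp.R, P, Sum.map_inl, Sum.map_inr, Sum.elim_inl, Sum.elim_inr, D,
      reduceCtorEq, false_and, false_or]
    refine and_congr_right (fun _ => and_congr_right (fun h => ?_))
    have : sw p a b q' z' = z' := by
      by_cases h2 : p ≤ q'
      · have h3 : q' = p := by rw [Fin.le_def] at *; exact Fin.ext (by omega)
        subst h3
        have := hy z' rfl
        simp [sw, swap_apply_of_ne_of_ne this.1 this.2]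
      · simp [sw, h2]
    rw [this]
  · simp only [Phi_inr, Sp.R, P, Sum.map_inr, Sum.elim_inr, D, Sum.inr.injEq, Prod.mk.injEq,
      mul_right_inj]

theorem adj_iff (p : Fin (M + 3)) (a b : Fin (k + 1)) (α : A k) (ρ : Perm (Fin (k + 1)))
    (hα : α.1 = swap a b * ρ⁻¹) (x y : W k M)
    (hx : ∀ z, x = Sum.inl (z, p) → z ≠ a ∧ z ≠ b)
    (hy : ∀ z, y = Sum.inl (z, p) → z ≠ a ∧ z ≠ b) :
    ((P k M).G (D 1)).Adj (Phi p a b α x) (Phi p a b α y) ↔ ((P k M).G (D ρ)).Adj x y := by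
  rw [Sp.adj, Sp.adj, rel_iff p a b α ρ hα x y hy, rel_iff p a b α ρ hα y x hx]

noncomputable instance : DecidableEq (W k M) := Classical.decEq _

noncomputable def Z (S : Finset (W k M)) (q : Fin (M + 3)) : Finset (Fin (k + 1)) :=
  univ.filter (fun a => Sum.inl (a, q) ∉ S)

theorem Z_map (p : Fin (M + 3)) (a b : Fin (k + 1)) (α : A k) (S : Finset (W k M))
    (ha : a ∈ Z S p) (hb : b ∈ Z S p) (q : Fin (M + 3)) (hq : q ≤ p) :
    Z (S.map (Phi p a b α).toEmbedding) q = Z S q := by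
  ext z
  simp only [Z, mem_filter, mem_univ, true_and] at ha hb ⊢
  refine not_congr ?_
  rw [Finset.mem_map_equiv]
  have : (Phi p a b α).symm (Sum.inl (z, q)) = Sum.inl ((sw p a b q)⁻¹ z, q) := by
    rw [Equiv.symm_apply_eq, Phi_inl]; simp
  rw [this]
  by_cases h : p ≤ q
  · have e : q = p := le_antisymm hq h
    subst e
    simp only [sw, le_refl, if_true, swap_inv]
    by_cases h1 : z = a
    · subst h1; simp [ha, hb]
    · by_cases h2 : z = b
      · subst h2; simp [ha, hb]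
      · rw [swap_apply_of_ne_of_ne h1 h2]
  · simp [sw, h]

theorem exists_good (S : Finset (W k M)) (h : S.card < k * (M + 3)) :
    ∃ p, 2 ≤ (Z S p).card ∧ ∀ q < p, ¬ 2 ≤ (Z S q).card := by
  have : ∃ p, 2 ≤ (Z S p).card := by
    by_contra hn
    push Not at hn
    have h1 : ∀ q, k ≤ (univ.filter (fun a : Fin (k + 1) => Sum.inl (a, q) ∈ S)).card := by
      intro q
      have e := Finset.card_filter_add_card_filter_not (s := (univ : Finset (Fin (k + 1))))
        (fun a => Sum.inl (a, q) ∈ S)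
      have := hn q
      simp only [Z] at this
      rw [card_univ, Fintype.card_fin] at e
      omega
    have h2 : (univ.filter (fun x : Fin (k + 1) × Fin (M + 3) => Sum.inl x ∈ S)).card ≤ S.card := by
      refine Finset.card_le_card_of_injOn Sum.inl (fun x hx => ?_) (fun x _ y _ e => Sum.inl_injective e)
      simpa using hx
    rw [card_filter, Fintype.sum_prod_type_right] at h2
    have h3 : ∑ _q : Fin (M + 3), k ≤ ∑ q : Fin (M + 3), ∑ a : Fin (k + 1),
        if Sum.inl (a, q) ∈ S then 1 else 0 := by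
      refine Finset.sum_le_sum (fun q _ => ?_)
      rw [← card_filter]
      exact h1 q
    simp only [sum_const, card_univ, Fintype.card_fin, smul_eq_mul] at h3
    rw [mul_comm] at h3
    omega
  obtain ⟨p, hp, hmin⟩ := exists_min_image (univ.filter (fun p => 2 ≤ (Z S p).card)) id
    (by obtain ⟨p, hp⟩ := this; exact ⟨p, by simpa using hp⟩)
  refine ⟨p, by simpa using hp, fun q hq h2 => ?_⟩
  have := hmin q (by simpa using h2)
  exact absurd hq (not_lt.2 this)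

theorem deck (ρ : Perm (Fin (k + 1))) (hρ : Perm.sign ρ = -1) (t : ℕ) (ht : t < k * (M + 3)) :
    ∃ φ : {S : Finset (W k M) // S.card = t} ≃ {S : Finset (W k M) // S.card = t},
      ∀ S, Nonempty (((P k M).G (D ρ)).induce (S.1 : Set (W k M)) ≃g
        ((P k M).G (D 1)).induce ((φ S).1 : Set (W k M))) := by
  have hch : ∀ Y : Finset (Fin (k + 1)), ∃ ab : Fin (k + 1) × Fin (k + 1),
      ∃ α : A k, 2 ≤ Y.card → ab.1 ∈ Y ∧ ab.2 ∈ Y ∧ α.1 = swap ab.1 ab.2 * ρ⁻¹ := by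
    intro Y
    by_cases h : 2 ≤ Y.card
    · obtain ⟨a, ha, b, hb, hab⟩ := Finset.one_lt_card.1 (show 1 < Y.card by omega)
      refine ⟨(a, b), ⟨swap a b * ρ⁻¹, ?_⟩, fun _ => ⟨ha, hb, rfl⟩⟩
      rw [Perm.mem_alternatingGroup, Perm.sign_mul, Perm.sign_inv, hρ, Perm.sign_swap hab]
      simp
    · exact ⟨(0, 0), 1, fun h' => absurd h' h⟩
  choose ab al hab using hch
  have hp : ∀ S : {S : Finset (W k M) // S.card = t},
      ∃ p, 2 ≤ (Z S.1 p).card ∧ ∀ q < p, ¬ 2 ≤ (Z S.1 q).card :=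
    fun S => exists_good S.1 (by rw [S.2]; exact ht)
  choose p hp1 hp2 using hp
  obtain ⟨Φ, hΦ⟩ : ∃ Φ : {S : Finset (W k M) // S.card = t} → W k M ≃ W k M, ∀ S, Φ S =
      Phi (p S) (ab (Z S.1 (p S))).1 (ab (Z S.1 (p S))).2 (al (Z S.1 (p S))) := ⟨_, fun _ => rfl⟩
  obtain ⟨F, hF⟩ : ∃ F : {S : Finset (W k M) // S.card = t} → {S : Finset (W k M) // S.card = t},
      ∀ S, (F S).1 = S.1.map (Φ S).toEmbedding :=
    ⟨fun S => ⟨S.1.map (Φ S).toEmbedding, by rw [card_map, S.2]⟩, fun _ => rfl⟩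
  have hZ : ∀ S q, q ≤ p S → Z (F S).1 q = Z S.1 q := by
    intro S q hq
    rw [hF, hΦ]
    exact Z_map _ _ _ _ _ (hab _ (hp1 S)).1 (hab _ (hp1 S)).2.1 q hq
  have hinj : Function.Injective F := by
    intro S S' e
    have key : ∀ T T', F T = F T' → ¬ p T < p T' := by
      intro T T' e' hlt
      apply hp2 T' _ hlt
      rw [← hZ T' _ hlt.le, ← e', hZ T _ le_rfl]
      exact hp1 T
    have e1 : p S = p S' := le_antisymm (not_lt.1 (key S' S e.symm)) (not_lt.1 (key S S' e))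
    have e2 : Z S.1 (p S) = Z S'.1 (p S') := by
      rw [← hZ S _ le_rfl, ← hZ S' _ le_rfl, e, e1]
    have e3 : Φ S = Φ S' := by rw [hΦ, hΦ, e2, e1]
    have e4 := congrArg Subtype.val e
    rw [hF, hF, e3] at e4
    exact Subtype.ext (Finset.map_injective _ e4)
  refine ⟨Equiv.ofBijective F (Finite.injective_iff_bijective.1 hinj), fun S => ⟨?_⟩⟩
  have hz : ∀ x ∈ S.1, ∀ z, x = Sum.inl (z, p S) →
      z ≠ (ab (Z S.1 (p S))).1 ∧ z ≠ (ab (Z S.1 (p S))).2 := by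
    rintro x hx z rfl
    have h1 := (hab _ (hp1 S)).1
    have h2 := (hab _ (hp1 S)).2.1
    generalize ab (Z S.1 (p S)) = c at h1 h2
    simp only [Z, mem_filter, mem_univ, true_and] at h1 h2
    exact ⟨fun e => h1 (e ▸ hx), fun e => h2 (e ▸ hx)⟩
  refine ⟨(Φ S).subtypeEquiv (fun x => ?_), ?_⟩
  · rw [Equiv.ofBijective_apply, Finset.mem_coe, Finset.mem_coe, hF, Finset.mem_map_equiv]
    simp
  · rintro ⟨x, hx⟩ ⟨y, hy⟩
    simp only [Equiv.subtypeEquiv_apply, SimpleGraph.comap_adj, Function.Embedding.subtype_apply]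
    rw [hΦ]
    exact adj_iff _ _ _ _ ρ (hab _ (hp1 S)).2.2 x y (hz x hx) (hz y hy)

theorem deg2 {V : Type} [Fintype V] (H : SimpleGraph V) [DecidableRel H.Adj] (v : V) :
    H.degree v = 2 ↔ ∃ x y, x ≠ y ∧ ∀ z, H.Adj v z ↔ z = x ∨ z = y := by
  classical
  rw [← SimpleGraph.card_neighborFinset_eq_degree, Finset.card_eq_two]
  refine exists_congr (fun x => exists_congr (fun y => and_congr_right (fun _ => ?_)))
  simp [Finset.ext_iff]

theorem card_W : Fintype.card (W k M) = (k + 1) * (M + 3) + Fintype.card (B k × Fin 3) := by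
  rw [Fintype.card_sum, Fintype.card_prod, Fintype.card_fin, Fintype.card_fin]

theorem no_ham (hk : 1 ≤ k) (ρ : Perm (Fin (k + 1))) (hρ : Perm.sign ρ = -1)
    (H : SimpleGraph (W k M)) (hle : H ≤ (P k M).G (D ρ))
    (e : H ≃g SimpleGraph.cycleGraph (Fintype.card (W k M))) : False := by
  classical
  obtain ⟨n, hn⟩ : ∃ n, Fintype.card (W k M) = n + 3 := by
    refine ⟨Fintype.card (W k M) - 3, ?_⟩
    have : M + 3 ≤ (k + 1) * (M + 3) := Nat.le_mul_of_pos_left _ (by omega)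
    have := card_W (k := k) (M := M)
    omega
  rw [hn] at e
  have hc : H.Connected := e.connected_iff.2 SimpleGraph.cycleGraph_connected
  have h2 : ∀ v, H.degree v = 2 := by
    intro v
    rw [← e.degree_eq]
    convert SimpleGraph.cycleGraph_degree_three_le (n := n) (v := e v)
  obtain ⟨s, s1, s2, s3⟩ := ham_to_s (P k M) (D ρ) H hle hc (fun v => (deg2 H v).1 (h2 v))
  exact no_s hk ρ hρ s s1 s2 s3

theorem yes_ham (hk : 2 ≤ k) : ∃ H : SimpleGraph (W k M), H ≤ (P k M).G (D 1) ∧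
    Nonempty (H ≃g SimpleGraph.cycleGraph (Fintype.card (W k M))) := by
  classical
  obtain ⟨s, s1, s2, s3⟩ := yes_s hk
  obtain ⟨hc, h2⟩ := s_to_ham (P k M) s s2 _ s3
  refine ⟨(P k M).G (fun a b => s a = b), Sp.mono _ _ _ (fun a b h => h ▸ s1 a), ?_⟩
  obtain ⟨n, ⟨e⟩⟩ := Pool.Agent.H.MP_4617fc_co.iso_cycle _ hc (fun v => (deg2 _ v).2 (h2 v))
  have := Fintype.card_congr e.toEquiv
  rw [Fintype.card_fin] at this
  rw [this]
  exact ⟨e⟩

theorem main (c : ℝ) (hc0 : 0 ≤ c) (hc1 : c < 1) (n0 : ℕ) :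
    ∃ n, n0 ≤ n ∧ 3 ≤ n ∧ ∃ (V : Type) (_ : Fintype V), Fintype.card V = n ∧
      ∃ G G' : SimpleGraph V,
      (∃ φ : {S : Finset V // S.card = ⌊c * n⌋₊} ≃ {S : Finset V // S.card = ⌊c * n⌋₊},
        ∀ S, Nonempty (G.induce (S.1 : Set V) ≃g G'.induce ((φ S).1 : Set V))) ∧
      Nat.card {H : SimpleGraph V // H ≤ G ∧ Nonempty (H ≃g SimpleGraph.cycleGraph n)} = 0 ∧
      0 < Nat.card {H : SimpleGraph V // H ≤ G' ∧ Nonempty (H ≃g SimpleGraph.cycleGraph n)} := by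
  classical
  obtain ⟨k0, hk0⟩ := exists_nat_gt (2 / (1 - c))
  obtain ⟨k, hk⟩ : ∃ k : ℕ, k = k0 + 2 := ⟨_, rfl⟩
  have hk2 : 2 ≤ k := by omega
  have h1c : 0 < 1 - c := by linarith
  have hkc : 2 < (1 - c) * k0 := by
    rw [div_lt_iff₀ h1c] at hk0
    linarith
  obtain ⟨C, hC⟩ : ∃ C, C = Fintype.card (B k × Fin 3) := ⟨_, rfl⟩
  obtain ⟨M, hM⟩ : ∃ M : ℕ, M = C + n0 := ⟨_, rfl⟩
  have hcard := card_W (k := k) (M := M)
  rw [← hC] at hcard
  have hge : M + 3 ≤ (k + 1) * (M + 3) := Nat.le_mul_of_pos_left _ (by omega)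
  obtain ⟨ρ, hρ⟩ : ∃ ρ : Perm (Fin (k + 1)), Perm.sign ρ = -1 :=
    ⟨swap 0 ⟨1, by omega⟩, Perm.sign_swap (by simp [Fin.ext_iff])⟩
  refine ⟨Fintype.card (W k M), by omega, by omega, W k M, inferInstance, rfl,
    (P k M).G (D ρ), (P k M).G (D 1), deck ρ hρ _ ?_, ?_, ?_⟩
  · rw [Nat.floor_lt (by positivity), hcard]
    push_cast
    have e1 : (k : ℝ) = k0 + 2 := by rw [hk]; push_cast; ring
    have e2 : (C : ℝ) ≤ M := by rw [hM]; push_cast; linarith [Nat.cast_nonneg (α := ℝ) n0]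
    have e3 : (0 : ℝ) ≤ C := Nat.cast_nonneg _
    have e4 : c * (k + 1) + c < k := by rw [e1]; nlinarith
    have e5 : c * C ≤ c * (M + 3) := mul_le_mul_of_nonneg_left (by linarith) hc0
    have e6 : (c * (k + 1) + c) * (M + 3) < k * (M + 3) :=
      mul_lt_mul_of_pos_right e4 (by linarith)
    nlinarith
  · rw [Nat.card_eq_zero]
    exact Or.inl ⟨fun H => H.2.2.elim (fun e => no_ham (by omega) ρ hρ H.1 H.2.1 e)⟩
  · obtain ⟨H, h1, h2⟩ := yes_ham (M := M) hk2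
    have : Nonempty {H : SimpleGraph (W k M) // H ≤ (P k M).G (D 1) ∧
      Nonempty (H ≃g SimpleGraph.cycleGraph (Fintype.card (W k M)))} := ⟨⟨H, h1, h2⟩⟩
    exact Nat.card_pos

end Pool.Agent.H.MP_9d0e7f_co
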